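import Pool.Agent.Helper33.IR.Goals

/-! # Packet IR-BA: consecutive best approximations of `log 3 / log 4` -/

set_option autoImplicit false

namespace Pool.Agent.Helper86.IR

open Pool.Agent.Helper33.IR

private lemma log3_gt : (1 : ℝ) < Real.log 3 := by
  rw [Real.lt_log_iff_exp_lt (by norm_num)]
  have := Real.exp_one_lt_d9
  linarith

private lemma log4_eq : Real.log 4 = 2 * Real.log 2 := by
  have : (4 : ℝ) = 2 ^ 2 := by norm_num
  rw [this, Real.log_pow]
  norm_num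

private lemma log4_lt : Real.log 4 < 1.4 := by
  have := Real.log_two_lt_d9
  rw [log4_eq]; linarith

private lemma log4_pos : 0 < Real.log 4 := Real.log_pos (by norm_num)

private lemma lin_ne (d m : ℕ) (hd : 1 ≤ d) : lin d m ≠ 0 := by
  intro h
  unfold lin at h
  push_cast at h
  have h1 : Real.log ((3 : ℝ) ^ d) = Real.log ((4 : ℝ) ^ m) := by
    rw [Real.log_pow, Real.log_pow]; linarith
  have h2 : (3 : ℝ) ^ d = (4 : ℝ) ^ m :=
    Real.log_injOn_pos (Set.mem_Ioi.2 (by positivity)) (Set.mem_Ioi.2 (by positivity)) h1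
  have h3 : 3 ^ d = 4 ^ m := by exact_mod_cast h2
  rcases Nat.eq_zero_or_pos m with hm | hm
  · subst hm
    have : 1 < 3 ^ d := Nat.one_lt_pow (by omega) (by norm_num)
    omega
  · have e : Even (4 ^ m) := Even.pow_of_ne_zero (by decide) (by omega)
    rw [← h3] at e
    exact (Nat.not_even_iff_odd.2 (Odd.pow (by decide))) e

private noncomputable def th : ℝ := Real.log 3 / Real.log 4

private noncomputable def mm (d : ℕ) : ℕ := (round ((d : ℝ) * th)).toNat

private noncomputable def ff (d : ℕ) : ℝ := |lin d (mm d)|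

private lemma lin_eq (d m : ℕ) : |lin d m| = Real.log 4 * |(d : ℝ) * th - (m : ℤ)| := by
  have h := log4_pos
  have : lin d m = Real.log 4 * ((d : ℝ) * th - (m : ℤ)) := by
    unfold lin th
    push_cast
    field_simp
  rw [this, abs_mul, abs_of_pos h]

private lemma th_pos : 0 < th := div_pos (by have := log3_gt; linarith) log4_pos

private lemma mm_cast (d : ℕ) : ((mm d : ℕ) : ℤ) = round ((d : ℝ) * th) := by
  unfold mm
  apply Int.toNat_of_nonneg
  rw [round_eq]
  apply Int.floor_nonneg.2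
  have := th_pos
  positivity

private lemma ff_le (d m : ℕ) : ff d ≤ |lin d m| := by
  unfold ff
  rw [lin_eq, lin_eq, mm_cast]
  exact mul_le_mul_of_nonneg_left (round_le _ _) log4_pos.le

private lemma ff_pos (d : ℕ) (hd : 1 ≤ d) : 0 < ff d := abs_pos.2 (lin_ne d _ hd)

private lemma dirichlet (del : ℝ) (hd : 0 < del) : ∃ d : ℕ, 1 ≤ d ∧ ff d < del := by
  obtain ⟨n, hn⟩ := exists_nat_gt (Real.log 4 / del)
  have hn0 : 0 < n := by
    rcases Nat.eq_zero_or_pos n with h | h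
    · subst h
      have : 0 < Real.log 4 / del := div_pos log4_pos hd
      simp at hn
      linarith
    · exact h
  obtain ⟨k, hk0, _, hk⟩ := Real.exists_nat_abs_mul_sub_round_le th hn0
  refine ⟨k, hk0, ?_⟩
  unfold ff
  rw [lin_eq, mm_cast]
  have h1 : Real.log 4 * |(k : ℝ) * th - round ((k : ℝ) * th)| ≤ Real.log 4 * (1 / (n + 1)) :=
    mul_le_mul_of_nonneg_left hk log4_pos.le
  have h2 : Real.log 4 * (1 / (n + 1)) < del := by
    rw [mul_one_div, div_lt_iff₀ (by positivity)]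
    rw [div_lt_iff₀ hd] at hn
    nlinarith
  linarith

private lemma exists_del (eps : ℝ) (he : 0 < eps) (N : ℕ) :
    ∃ del : ℝ, 0 < del ∧ del ≤ eps ∧ ∀ d, 1 ≤ d → d ≤ N → del ≤ ff d := by
  induction N with
  | zero => exact ⟨eps, he, le_rfl, fun d h1 h2 => by omega⟩
  | succ N ih =>
    obtain ⟨del, h0, h1, h2⟩ := ih
    refine ⟨min del (ff (N + 1)), lt_min h0 (ff_pos _ (by omega)), (min_le_left _ _).trans h1, ?_⟩
    intro d hd hd'
    rcases Nat.lt_or_ge N d with h | h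
    · have : d = N + 1 := by omega
      subst this
      exact min_le_right _ _
    · exact (min_le_left _ _).trans (h2 d hd h)

theorem gBA : G_BA := by
  classical
  intro eps n heps
  obtain ⟨del, hd0, hd1, hd2⟩ := exists_del (min eps (1 / 20)) (lt_min heps (by norm_num))
    (2 * n + 2)
  have hdeps : del ≤ eps := hd1.trans (min_le_left _ _)
  have hd20 : del ≤ 1 / 20 := hd1.trans (min_le_right _ _)
  have hex : ∃ d : ℕ, 1 ≤ d ∧ ff d < del := dirichlet del hd0
  obtain ⟨q, ⟨hq1, hq2⟩, hq3⟩ : ∃ q : ℕ, (1 ≤ q ∧ ff q < del) ∧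
      ∀ d < q, ¬ (1 ≤ d ∧ ff d < del) :=
    ⟨Nat.find hex, Nat.find_spec hex, fun d h => Nat.find_min hex h⟩
  have hex' : ∃ d : ℕ, 1 ≤ d ∧ ff d < ff q := dirichlet (ff q) (ff_pos q hq1)
  obtain ⟨q', ⟨hr1, hr2⟩, hr3⟩ : ∃ q' : ℕ, (1 ≤ q' ∧ ff q' < ff q) ∧
      ∀ d < q', ¬ (1 ≤ d ∧ ff d < ff q) :=
    ⟨Nat.find hex', Nat.find_spec hex', fun d h => Nat.find_min hex' h⟩
  have hqN : 2 * n + 2 < q := by
    by_contra h
    have := hd2 q hq1 (by omega)
    linarith
  have hqq : q < q' := by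
    by_contra h
    rcases Nat.lt_or_ge q' q with h1 | h1
    · exact hq3 q' h1 ⟨hr1, by linarith⟩
    · have : q' = q := by omega
      rw [this] at hr2
      exact lt_irrefl _ hr2
  have hl3 := log3_gt
  have hl4 := log4_lt
  have hl4p := log4_pos
  have hsm : |lin q (mm q)| < del := hq2
  have hbt : |lin q' (mm q')| < |lin q (mm q)| := hr2
  have hbest : ∀ d m : ℕ, 1 ≤ d → d < q' → |lin q (mm q)| ≤ |lin d m| := by
    intro d m h1 h2
    have h3 : ff q ≤ ff d := by
      by_contra h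
      exact hr3 d h2 ⟨h1, not_le.1 h⟩
    exact h3.trans (ff_le d m)
  have hqr : ((2 : ℝ) * n + 3) ≤ q := by exact_mod_cast hqN
  have hqr' : ((q : ℝ) + 1) ≤ q' := by exact_mod_cast hqq
  have ha := abs_lt.1 (hsm.trans_le hd20)
  have ha' := abs_lt.1 (hbt.trans (hsm.trans_le hd20))
  have hlq : lin (q : ℤ) ((mm q : ℕ) : ℤ) = (q : ℝ) * Real.log 3 - (mm q : ℝ) * Real.log 4 := by
    unfold lin; push_cast; ring
  have hlq' : lin (q' : ℤ) ((mm q' : ℕ) : ℤ)
      = (q' : ℝ) * Real.log 3 - (mm q' : ℝ) * Real.log 4 := by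
    unfold lin; push_cast; ring
  have hn0 : (0 : ℝ) ≤ n := Nat.cast_nonneg n
  have hpn' : (n : ℝ) < mm q := by
    by_contra h
    have h1 : (mm q : ℝ) * Real.log 4 ≤ n * 1.4 := by
      have := not_lt.1 h
      nlinarith
    have h2 : ((2 : ℝ) * n + 3) ≤ q * Real.log 3 := by nlinarith
    have h3 := ha.2
    rw [hlq] at h3
    linarith
  have hpn : n < mm q := by exact_mod_cast hpn'
  refine ⟨q, mm q, q', mm q', ⟨hq1, by omega, hqq, hbest, hbt, ?_, hsm.trans_le hd20⟩,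
    hsm.trans_le hdeps, by omega, hpn.le⟩
  by_contra hop
  have hop' := not_lt.1 hop
  have hpp : (mm q : ℝ) < mm q' := by
    by_contra h
    have h1 := not_lt.1 h
    have h2 : ((mm q' : ℝ) - mm q) * Real.log 4 ≤ 0 :=
      mul_nonpos_of_nonpos_of_nonneg (by linarith) hl4p.le
    have h3 : 1 ≤ ((q' : ℝ) - q) * Real.log 3 := by nlinarith
    rw [hlq] at ha
    rw [hlq'] at ha'
    nlinarith
  have hpp' : mm q < mm q' := by exact_mod_cast hpp
  have h1 := hbest (q' - q) (mm q' - mm q) (by omega) (by omega)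
  have h2 : lin ((q' - q : ℕ) : ℤ) ((mm q' - mm q : ℕ) : ℤ)
      = lin (q' : ℤ) ((mm q' : ℕ) : ℤ) - lin (q : ℤ) ((mm q : ℕ) : ℤ) := by
    unfold lin
    rw [Nat.cast_sub hqq.le, Nat.cast_sub hpp'.le]
    push_cast
    ring
  rw [h2] at h1
  have hne := lin_ne q' (mm q') hr1
  rcases le_total 0 (lin (q : ℤ) ((mm q : ℕ) : ℤ)) with h0 | h0
  · have h0' : 0 < lin (q : ℤ) ((mm q : ℕ) : ℤ) := lt_of_le_of_ne h0 (Ne.symm (lin_ne q _ hq1))
    have h4 : 0 ≤ lin (q' : ℤ) ((mm q' : ℕ) : ℤ) := by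
      by_contra h
      have := mul_neg_of_pos_of_neg h0' (not_le.1 h)
      linarith
    have h5 : 0 < lin (q' : ℤ) ((mm q' : ℕ) : ℤ) := lt_of_le_of_ne h4 (Ne.symm hne)
    rw [abs_of_pos h0'] at h1 hbt
    rw [abs_of_pos h5] at hbt
    rw [abs_of_nonpos (by linarith)] at h1
    linarith
  · have h0' : lin (q : ℤ) ((mm q : ℕ) : ℤ) < 0 := lt_of_le_of_ne h0 (lin_ne q _ hq1)
    have h4 : lin (q' : ℤ) ((mm q' : ℕ) : ℤ) ≤ 0 := by
      by_contra h
      have := mul_neg_of_neg_of_pos h0' (not_le.1 h)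
      linarith
    have h5 : lin (q' : ℤ) ((mm q' : ℕ) : ℤ) < 0 := lt_of_le_of_ne h4 hne
    rw [abs_of_neg h0'] at h1 hbt
    rw [abs_of_neg h5] at hbt
    rw [abs_of_nonneg (by linarith)] at h1
    linarith

end Pool.Agent.Helper86.IR
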